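import Mathlib
import Pool.Agent.H23.EL.Ang
import Pool.Agent.H23.PC.Wsq

/-!
# A necessary condition for `L(1/2, ψ) = 0`, for characters of prime power order over `F_q[T]`

Let `ψ` be a nontrivial Dirichlet character modulo `Q ∈ F_q[T]` of order a power of an odd prime `ℓ` which does not
divide `q`. If `L(1/2, ψ) = 0` then `Q` has a prime factor `P` whose norm `|P| = q ^ deg P` is the square of an integer
`r` with `r ≡ 1` modulo `ℓ`. So `L(1/2, ψ) ≠ 0` for all other `Q`, for example, when `q` is not a square, for all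
`Q` all of whose prime factors have odd degree.

Proof: modulo any place above `ℓ` the L-function becomes the one of the principal character modulo `Q`; so at every
place `√q ^ (deg P) = 1` for a prime factor `P` of `Q`. If `q` is not a square the places are permuted by an
automorphism which changes the sign of `√q`, and not all `P` which occur can have odd degree.
-/

set_option autoImplicit false

namespace Pool.Agent.Results.MP_347b49_nt.CentralVanishingCriterion

open Polynomial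

variable {F : Type} [Field F] [Fintype F]

/-- the L-function `∑ χ(f) u ^ deg f` (sum over the monic `f`) of the character `χ` modulo `Q`, as a polynomial in
`u`; the terms with `deg f ≥ deg Q` cancel if `χ` is not principal (`LPoly_coeff`) -/
noncomputable def LPoly (Q : F[X]) (χ : MulChar (AdjoinRoot Q) ℂ) : ℂ[X] :=
  ∑ k ∈ Finset.range Q.natDegree,
    C (∑ᶠ f ∈ {f : F[X] | f.Monic ∧ f.natDegree = k}, χ (AdjoinRoot.mk Q f)) * X ^ k

/-- the L-function as a function of `s`, `u = q ^ (-s)` -/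
noncomputable def LFun (Q : F[X]) (χ : MulChar (AdjoinRoot Q) ℂ) (s : ℂ) : ℂ :=
  (LPoly Q χ).eval ((Fintype.card F : ℂ) ^ (-s))

open Pool.Agent.H23.FF Pool.Agent.H23.PC Pool.Agent.H23.EL
open Pool.Agent.H341R2.Sharp (Mon mem_Mon)

theorem set_Mon (k : ℕ) : {R : F[X] | R.Monic ∧ R.natDegree = k} = (Mon F k : Set F[X]) := by
  ext R
  rw [Set.mem_ofPred_eq, Finset.mem_coe, mem_Mon]

theorem LPoly_eq (Q : F[X]) (χ : MulChar (AdjoinRoot Q) ℂ) : LPoly Q χ = Lp Q.natDegree (fn χ) := by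
  unfold LPoly Lp cf
  apply Finset.sum_congr rfl
  intro k _
  rw [set_Mon, finsum_mem_coe_finset]
  rfl

/-- the coefficients of the L-function -/
theorem LPoly_coeff {Q : F[X]} (hQ : Q.Monic) {χ : MulChar (AdjoinRoot Q) ℂ} (hχ : χ ≠ 1) (k : ℕ) :
    (LPoly Q χ).coeff k = ∑ᶠ f ∈ {f : F[X] | f.Monic ∧ f.natDegree = k}, χ (AdjoinRoot.mk Q f) := by
  obtain ⟨D, hD⟩ := exists_cond hQ rfl
  rw [LPoly_eq, Lp_coeff (dc_fn hQ χ) rfl (hD χ hχ).1, set_Mon, finsum_mem_coe_finset]
  rfl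

omit [Fintype F] in
theorem pow_of {P : F[X]} {ψ : MulChar (AdjoinRoot P) ℂ} {n : ℕ} (hn : ψ ^ n = 1) (f : F[X])
    (hf : IsCoprime f P) : fn ψ f ^ n = 1 := by
  have h1 : (ψ ^ n) (AdjoinRoot.mk P f) = 1 := by
    rw [hn, ← un_coe hf, MulChar.one_apply_coe]
  rw [← un_coe hf, MulChar.pow_apply_coe] at h1
  unfold fn
  rw [← un_coe hf]
  exact h1

theorem LFun_eq (Q : F[X]) (χ : MulChar (AdjoinRoot Q) ℂ) (s : ℂ) :
    LFun Q χ s = ∑ n ∈ Finset.range Q.natDegree, cf (fn χ) n * ((Fintype.card F : ℂ) ^ (-s)) ^ n := by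
  unfold LFun
  rw [LPoly_eq]
  unfold Lp
  rw [eval_finsetSum]
  apply Finset.sum_congr rfl
  intro n _
  rw [eval_mul, eval_C, eval_pow, eval_X]

theorem point (q : ℕ) (hq : 0 < q) : ((√(q : ℝ) : ℝ) : ℂ) * (q : ℂ) ^ (-(1 / 2 : ℂ)) = 1 := by
  have hq' : (0 : ℝ) < q := by exact_mod_cast hq
  have hqc : (q : ℂ) ≠ 0 := by exact_mod_cast hq.ne'
  have h1 : √(q : ℝ) = Real.exp (Real.log q / 2) := by
    rw [Real.exp_half, Real.exp_log hq']
  have h2 : Complex.log (q : ℂ) = ((Real.log q : ℝ) : ℂ) := by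
    rw [Complex.ofReal_log hq'.le, Complex.ofReal_natCast]
  have h3 : ((Real.log q / 2 : ℝ) : ℂ) + ((Real.log q : ℝ) : ℂ) * -(1 / 2 : ℂ) = 0 := by
    push_cast
    ring
  rw [h1, Complex.cpow_def_of_ne_zero hqc, h2, Complex.ofReal_exp, ← Complex.exp_add, h3, Complex.exp_zero]

/-- **A central zero forces a prime factor `P` of the modulus with `|P| = r²`, `r ≡ 1` modulo `ℓ`.** -/
theorem result (F : Type) [Field F] [Fintype F] (Q : F[X]) (hQ : Q.Monic) (l j : ℕ) (hl : l.Prime) (hl2 : l ≠ 2)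
    (hlF : (l : F) ≠ 0) (ψ : MulChar (AdjoinRoot Q) ℂ) (hψ : ψ ≠ 1) (hψl : ψ ^ l ^ j = 1)
    (h0 : LFun Q ψ (1 / 2) = 0) :
    ∃ (P : F[X]) (r : ℕ), P.Monic ∧ Irreducible P ∧ P ∣ Q ∧ r ^ 2 = Fintype.card F ^ P.natDegree ∧
      r ≡ 1 [MOD l] := by
  have hq0 : 0 < Fintype.card F := Fintype.card_pos
  have hnt : NT Q (fn ψ) := by
    obtain ⟨D, hD⟩ := exists_cond hQ rfl
    exact (hD ψ hψ).1
  set p := ringChar F with hp'
  have hchar : CharP F p := ringChar.charP F
  obtain ⟨e, hp, he⟩ := FiniteField.card F p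
  have hlq : ¬ l ∣ Fintype.card F := by
    intro h
    rw [he] at h
    have h1 := (Nat.prime_dvd_prime_iff_eq hl hp).1 (hl.dvd_of_dvd_pow h)
    apply hlF
    rw [h1]
    exact CharP.cast_eq_zero F p
  by_contra hc
  rw [LFun_eq] at h0
  refine central hl hl2 rfl (dc_fn hQ ψ) (fun f hf => pow_of hψl f hf) hnt hlq ?_ (point _ hq0) h0
  intro P hP r hr h1
  rw [mem_prs hQ] at hP
  exact hc ⟨P, r, hP.1, hP.2.1, hP.2.2, hr, h1⟩

end Pool.Agent.Results.MP_347b49_nt.CentralVanishingCriterion
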